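import Pool.Agent.H867.FT.Gen2
import Pool.Agent.H127.FT867REF

set_option autoImplicit false

namespace Pool.Agent.H387.FT867CON

open Pool.Agent.H867.FT

/-- **CON.** Steps (1)-(3) of the proof of `S_REF`. -/
theorem con (hK : S_KRU) : S_CON := by
  intro P L K _ _ _ _ _ _ _ _ _ _ _ a b c d x n l hn ha hrel hind hgen hl t ht u hu
  have h : Pool.Agent.H127.FT867REF.Cub P L K a b c d x := ⟨ha, hrel, hind, hgen⟩
  change ∃ j : ℕ, algebraMap P K (u ^ j) * t ∈ Pool.Agent.H127.FT867REF.Mn P x n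
  change ∀ 𝔭 : Ideal P, 𝔭.IsPrime → 𝔭.height = 1 →
    ∃ s : P, s ∉ 𝔭 ∧ algebraMap P K s * t ∈ Pool.Agent.H127.FT867REF.Mn P x n at ht
  let 𝔞 : Ideal P := Submodule.comap (LinearMap.toSpanSingleton P K t)
    (Pool.Agent.H127.FT867REF.Mn P x n)
  have mem𝔞 : ∀ u : P, u ∈ 𝔞 ↔
      algebraMap P K u * t ∈ Pool.Agent.H127.FT867REF.Mn P x n := by
    intro u
    rw [Submodule.mem_comap, LinearMap.toSpanSingleton_apply, Algebra.smul_def]
  have hrad : ∀ u : P, (∃ j : ℕ, algebraMap P K (u ^ j) * t ∈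
      Pool.Agent.H127.FT867REF.Mn P x n) → u ∈ 𝔞.radical := by
    rintro u ⟨j, hj⟩
    exact ⟨j, (mem𝔞 _).2 hj⟩
  have ra : a ∈ 𝔞.radical := hrad a (Pool.Agent.H127.FT867REF.pow_t hK h n hn t ht)
  have rv : ∀ i, a * l i ^ 3 + b * l i ^ 2 + c * l i + d ∈ 𝔞.radical :=
    fun i => hrad _ (Pool.Agent.H127.FT867REF.pow_v hK h n hn t ht (l i))
  have hlin : ∀ i j, i ≠ j → b * (l i + l j) + c ∈ 𝔞.radical := by
    intro i j hij
    obtain ⟨w, hw⟩ := hl i j hij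
    have h3 : b * (l i + l j) + c = ((w⁻¹ : Pˣ) : P) * ((a * l i ^ 3 + b * l i ^ 2 + c * l i + d) -
        (a * l j ^ 3 + b * l j ^ 2 + c * l j + d)) - (l i ^ 2 + l i * l j + l j ^ 2) * a := by
      have h4 : ((w⁻¹ : Pˣ) : P) * (l i - l j) = 1 := by rw [← hw, Units.inv_mul]
      linear_combination (-(b * (l i + l j) + c) - a * (l i ^ 2 + l i * l j + l j ^ 2)) * h4
    rw [h3]
    exact Ideal.sub_mem _ (Ideal.mul_mem_left _ _ (Ideal.sub_mem _ (rv i) (rv j)))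
      (Ideal.mul_mem_left _ _ ra)
  have rb : b ∈ 𝔞.radical := by
    obtain ⟨w, hw⟩ := hl 1 2 (by decide)
    have h4 : ((w⁻¹ : Pˣ) : P) * (l 1 - l 2) = 1 := by rw [← hw, Units.inv_mul]
    have h5 : b = ((w⁻¹ : Pˣ) : P) * ((b * (l 0 + l 1) + c) - (b * (l 0 + l 2) + c)) := by
      linear_combination (-b) * h4
    rw [h5]
    exact Ideal.mul_mem_left _ _ (Ideal.sub_mem _ (hlin 0 1 (by decide)) (hlin 0 2 (by decide)))
  have rc : c ∈ 𝔞.radical := by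
    have h5 : c = (b * (l 0 + l 1) + c) - (l 0 + l 1) * b := by ring
    rw [h5]
    exact Ideal.sub_mem _ (hlin 0 1 (by decide)) (Ideal.mul_mem_left _ _ rb)
  have rd : d ∈ 𝔞.radical := by
    have h5 : d = (a * l 0 ^ 3 + b * l 0 ^ 2 + c * l 0 + d) - (l 0 ^ 3 * a + l 0 ^ 2 * b + l 0 * c) := by
      ring
    rw [h5]
    exact Ideal.sub_mem _ (rv 0) (Ideal.add_mem _ (Ideal.add_mem _ (Ideal.mul_mem_left _ _ ra)
      (Ideal.mul_mem_left _ _ rb)) (Ideal.mul_mem_left _ _ rc))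
  have hall : Ideal.span {a, b, c, d} ≤ 𝔞.radical := by
    rw [Ideal.span_le]
    rintro y (rfl | rfl | rfl | rfl)
    exacts [ra, rb, rc, rd]
  obtain ⟨j, hj⟩ := hall hu
  exact ⟨j, (mem𝔞 _).1 hj⟩

end Pool.Agent.H387.FT867CON
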