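import Pool.Agent.H867.FT.Gen4

set_option autoImplicit false

namespace Pool.Agent.H387.FT867EXK

open Polynomial Pool.Agent.H867.FT

/-- `-T⁴` is not a cube -/
theorem no_cube {k : Type} [Field k] (y : PowerSeries k) (h : y ^ 3 + PowerSeries.X ^ 4 = 0) :
    False := by
  have h1 : y ^ 3 = -(PowerSeries.X ^ 4) := eq_neg_of_add_eq_zero_left h
  have h2 := congrArg PowerSeries.order h1
  rw [PowerSeries.order_pow, PowerSeries.order_neg, PowerSeries.order_X_pow] at h2
  by_cases h3 : y.order = ⊤
  · rw [h3] at h2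
    have h4 : (3 : ℕ) • (⊤ : ℕ∞) = ⊤ := by
      rw [nsmul_eq_mul]
      exact ENat.mul_top (by norm_num)
    rw [h4] at h2
    exact absurd h2 (ENat.top_ne_natCast 4)
  · obtain ⟨n, hn⟩ := ENat.ne_top_iff_exists.1 h3
    rw [← hn, nsmul_eq_mul] at h2
    have h5 : 3 * n = 4 := by exact_mod_cast h2
    omega

/-- the specialization `X_0 ↦ T`, `X_2 ↦ T²`, `X_i ↦ 0` -/
noncomputable def sp (k : Type) [Field k] (m : ℕ) (i : Fin (m + 3)) : MvPowerSeries Unit k :=
  if i = 0 then (PowerSeries.X : PowerSeries k)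
  else if i = 2 then ((PowerSeries.X : PowerSeries k) ^ 2) else 0

theorem h10 (m : ℕ) : (1 : Fin (m + 3)) ≠ 0 := by
  intro h
  have := congrArg Fin.val h
  simp at this

theorem h12 (m : ℕ) : (1 : Fin (m + 3)) ≠ 2 := by
  intro h
  have := congrArg Fin.val h
  rw [Fin.val_one, Fin.val_two] at this
  omega

theorem h20 (m : ℕ) : (2 : Fin (m + 3)) ≠ 0 := by
  intro h
  have := congrArg Fin.val h
  rw [Fin.val_two, Fin.val_zero] at this
  omega

theorem sp_subst (k : Type) [Field k] (m : ℕ) : MvPowerSeries.HasSubst (sp k m) := by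
  refine MvPowerSeries.hasSubst_of_constantCoeff_zero fun i => ?_
  have h1 : MvPowerSeries.constantCoeff (PowerSeries.X : PowerSeries k) = 0 :=
    PowerSeries.constantCoeff_X
  unfold sp
  split_ifs
  · exact h1
  · rw [map_pow, h1]
    norm_num
  · exact map_zero _

/-- no solution in power series -/
theorem no_sol (k : Type) [Field k] (m : ℕ) (y : MvPowerSeries (Fin (m + 3)) k)
    (h : y ^ 3 + MvPowerSeries.X 0 * MvPowerSeries.X 1 * y +
      MvPowerSeries.X 0 ^ 2 * MvPowerSeries.X 2 = 0) : False := by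
  have h1 := congrArg (MvPowerSeries.substAlgHom (R := k) (sp_subst k m)) h
  simp only [map_add, map_mul, map_pow, map_zero, MvPowerSeries.substAlgHom_X] at h1
  have e0 : sp k m 0 = (PowerSeries.X : PowerSeries k) := if_pos rfl
  have e1 : sp k m 1 = 0 := by
    unfold sp
    rw [if_neg (h10 m), if_neg (h12 m)]
  have e2 : sp k m 2 = ((PowerSeries.X : PowerSeries k) ^ 2) := by
    unfold sp
    rw [if_neg (h20 m), if_pos rfl]
  rw [e0, e1, e2, mul_zero, zero_mul, add_zero, ← pow_add] at h1
  exact no_cube _ h1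

section

variable {k : Type} [Field k] {m : ℕ} {L : Type} [Field L]
  [Algebra (MvPowerSeries (Fin (m + 3)) k) L]
  [IsFractionRing (MvPowerSeries (Fin (m + 3)) k) L]

theorem X_ne (i : Fin (m + 3)) :
    algebraMap (MvPowerSeries (Fin (m + 3)) k) L (MvPowerSeries.X i) ≠ 0 := by
  intro h
  rw [← map_zero (algebraMap (MvPowerSeries (Fin (m + 3)) k) L)] at h
  have h1 := IsFractionRing.injective (MvPowerSeries (Fin (m + 3)) k) L h
  have h2 := congrArg (MvPowerSeries.coeff (Finsupp.single i 1)) h1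
  rw [MvPowerSeries.coeff_index_single_self_X, map_zero] at h2
  exact one_ne_zero h2

/-- no root in `L` -/
theorem no_root (hP : S_PSN) (z : L)
    (hz : algebraMap (MvPowerSeries (Fin (m + 3)) k) L (MvPowerSeries.X 0) * z ^ 3 +
      algebraMap (MvPowerSeries (Fin (m + 3)) k) L (MvPowerSeries.X 1) * z +
      algebraMap (MvPowerSeries (Fin (m + 3)) k) L (MvPowerSeries.X 2) = 0) : False := by
  have hic := hP k (m + 3)
  have hint : IsIntegral (MvPowerSeries (Fin (m + 3)) k)
      (algebraMap (MvPowerSeries (Fin (m + 3)) k) L (MvPowerSeries.X 0) * z) := by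
    refine ⟨X ^ 3 + C (MvPowerSeries.X 0 * MvPowerSeries.X 1) * X +
      C (MvPowerSeries.X 0 ^ 2 * MvPowerSeries.X 2), ?_, ?_⟩
    · monicity!
    · simp only [eval₂_add, eval₂_mul, eval₂_pow, eval₂_X, eval₂_C, map_mul, map_pow]
      linear_combination
        (algebraMap (MvPowerSeries (Fin (m + 3)) k) L (MvPowerSeries.X 0)) ^ 2 * hz
  obtain ⟨y, hy⟩ := IsIntegrallyClosed.isIntegral_iff.1 hint
  refine no_sol k m y ?_
  apply IsFractionRing.injective (MvPowerSeries (Fin (m + 3)) k) L
  simp only [map_add, map_mul, map_pow, map_zero, hy]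
  linear_combination
    (algebraMap (MvPowerSeries (Fin (m + 3)) k) L (MvPowerSeries.X 0)) ^ 2 * hz

end

/-- a separable cubic extension from an irreducible cubic polynomial -/
theorem cubic_ext {L : Type} [Field L] (a c d : L) (ha : a ≠ 0) (hc : c ≠ 0)
    (hno : ∀ z : L, a * z ^ 3 + c * z + d ≠ 0) :
    ∃ (K : Type) (_ : Field K) (_ : Algebra L K) (x : K), FiniteDimensional L K ∧
      Algebra.IsSeparable L K ∧ Module.finrank L K = 3 ∧
      algebraMap L K a * x ^ 3 + algebraMap L K c * x + algebraMap L K d = 0 ∧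
      ∀ l₀ l₁ l₂ : L, algebraMap L K l₀ + algebraMap L K l₁ * x + algebraMap L K l₂ * x ^ 2 = 0 →
        l₀ = 0 ∧ l₁ = 0 ∧ l₂ = 0 := by
  obtain ⟨f, hf⟩ : ∃ f : L[X], f = C a * X ^ 3 + C 0 * X ^ 2 + C c * X + C d := ⟨_, rfl⟩
  have hdeg : f.natDegree = 3 := by
    rw [hf]
    exact natDegree_cubic ha
  have hf0 : f ≠ 0 := by
    intro h
    rw [h, natDegree_zero] at hdeg
    exact absurd hdeg (by norm_num)
  have hirr : Irreducible f := by
    refine irreducible_of_degree_le_three_of_not_isRoot (by rw [hdeg]; simp) fun z hz => ?_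
    rw [IsRoot, hf] at hz
    simp only [eval_add, eval_mul, eval_C, eval_pow, eval_X, zero_mul, add_zero] at hz
    exact hno z hz
  have hsep : f.Separable := by
    rw [separable_iff_derivative_ne_zero hirr]
    intro h
    have h1 := congrArg (fun p => coeff p 0) h
    rw [hf] at h1
    simp [coeff_derivative, coeff_C, coeff_X] at h1
    exact hc h1
  have hfact : Fact (Irreducible f) := ⟨hirr⟩
  have hroot : aeval (AdjoinRoot.root f) f = 0 := by
    rw [AdjoinRoot.aeval_eq, AdjoinRoot.mk_self]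
  refine ⟨AdjoinRoot f, inferInstance, inferInstance, AdjoinRoot.root f,
    (AdjoinRoot.powerBasis hf0).finite, ?_, ?_, ?_, ?_⟩
  · have h1 : IsSeparable L (AdjoinRoot.root f) := hsep.of_dvd (minpoly.dvd L _ hroot)
    have h2 : Algebra.IsSeparable L (IntermediateField.adjoin L {AdjoinRoot.root f}) := by
      rw [IntermediateField.isSeparable_adjoin_iff_isSeparable]
      intro y hy
      rw [Set.mem_singleton_iff.1 hy]
      exact h1
    rw [← separableClosure.eq_top_iff, eq_top_iff, ← IntermediateField.adjoin_root_eq_top f]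
    exact le_separableClosure _ _ _
  · rw [(AdjoinRoot.powerBasis hf0).finrank, AdjoinRoot.powerBasis_dim, hdeg]
  · have h5 := congrArg (aeval (AdjoinRoot.root f)) hf
    rw [hroot] at h5
    simp only [map_add, map_mul, map_pow, aeval_C, aeval_X, map_zero, zero_mul, add_zero] at h5
    exact h5.symm
  · intro l₀ l₁ l₂ h
    have h1 : AdjoinRoot.mk f (C l₀ + C l₁ * X + C l₂ * X ^ 2) = 0 := by
      rw [← AdjoinRoot.aeval_eq]
      simp only [map_add, map_mul, map_pow, aeval_C, aeval_X]
      exact h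
    rw [AdjoinRoot.mk_eq_zero] at h1
    have h2 : C l₀ + C l₁ * X + C l₂ * X ^ 2 = 0 := by
      refine eq_zero_of_dvd_of_natDegree_lt h1 ?_
      rw [hdeg]
      have h3 : (C l₀ + C l₁ * X + C l₂ * X ^ 2).natDegree ≤ 2 := by compute_degree
      omega
    refine ⟨?_, ?_, ?_⟩
    · have := congrArg (fun p => coeff p 0) h2
      simpa using this
    · have := congrArg (fun p => coeff p 1) h2
      simpa [coeff_C, coeff_X] using this
    · have := congrArg (fun p => coeff p 2) h2
      simpa [coeff_C, coeff_X] using this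

/-- **EXK** -/
theorem exk (h : S_PSN) : S_EXK := by
  intro k _ m L _ _ _
  exact cubic_ext _ _ _ (X_ne 0) (X_ne 1) fun z hz => no_root h z hz

end Pool.Agent.H387.FT867EXK
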