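import Pool.Agent.H840.MX.Stm

/-!
# The Jacobian inequality for the valuation with `v (X i) = 1`, `v F = 4`
-/

set_option autoImplicit false

namespace Pool.Agent.H387.MXVB3

open MvPolynomial Pool.Agent.T2H40.MI Pool.Agent.H840.MX

/-- the Jacobian determinant of three polynomials, expanded -/
noncomputable def T (f g h : S) : S :=
  pderiv 0 f * pderiv 1 g * pderiv 2 h - pderiv 0 f * pderiv 1 h * pderiv 2 g
    - pderiv 0 g * pderiv 1 f * pderiv 2 h + pderiv 0 g * pderiv 1 h * pderiv 2 f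
    + pderiv 0 h * pderiv 1 f * pderiv 2 g - pderiv 0 h * pderiv 1 g * pderiv 2 f

theorem jac_eq (p : Fin 3 → S) : jac p = T (p 0) (p 1) (p 2) := by
  simp only [jac, T, Matrix.det_fin_three, Matrix.of_apply]

theorem T_add1 (f f' g h : S) : T (f + f') g h = T f g h + T f' g h := by
  simp only [T, map_add]; ring

theorem T_add2 (f g g' h : S) : T f (g + g') h = T f g h + T f g' h := by
  simp only [T, map_add]; ring

theorem T_add3 (f g h h' : S) : T f g (h + h') = T f g h + T f g h' := by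
  simp only [T, map_add]; ring

theorem T_zero1 (g h : S) : T 0 g h = 0 := by simp [T]

theorem T_zero2 (f h : S) : T f 0 h = 0 := by simp [T]

theorem T_zero3 (f g : S) : T f g 0 = 0 := by simp [T]

attribute [local instance] MvPolynomial.gradedAlgebra

theorem comp_mul {a b : S} {i : ℕ} (ha : a.IsHomogeneous i) (n : ℕ) :
    homogeneousComponent n (a * b) = if i ≤ n then a * homogeneousComponent (n - i) b else 0 := by
  have h0 : ∀ (φ : S) (k : ℕ), (DirectSum.decompose (homogeneousSubmodule (Fin 3) ℂ) φ k : S) =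
      homogeneousComponent k φ := fun φ k => decomposition.decompose'_apply φ k
  rw [← h0, ← h0]
  exact DirectSum.coe_decompose_mul_of_left_mem (𝒜 := homogeneousSubmodule (Fin 3) ℂ) n
    ((mem_homogeneousSubmodule i a).2 ha)

/-- the products `F ^ m a` with `4 m + e ≥ n` -/
def Gen (F : S) (n : ℕ) : Set S :=
  {g | ∃ (m e : ℕ) (a : S), a.IsHomogeneous e ∧ n ≤ 4 * m + e ∧ g = F ^ m * a}

theorem mem_closure {F : S} {v : AddValuation S ℕ∞} (hF : F.IsHomogeneous 3) (hv : IsVb F v)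
    {n : ℕ} {f : S} (hf : (n : ℕ∞) ≤ v f) : f ∈ AddSubmonoid.closure (Gen F n) := by
  rw [hv] at hf
  rw [← sum_homogeneousComponent f]
  refine AddSubmonoid.sum_mem _ fun k _ => ?_
  rcases le_or_gt n k with hk | hk
  · refine AddSubmonoid.subset_closure ⟨0, k, homogeneousComponent k f,
      homogeneousComponent_isHomogeneous k f, by omega, by rw [pow_zero, one_mul]⟩
  · obtain ⟨b, hb⟩ := hf k
    have h1 : (F ^ (n - k)).IsHomogeneous (3 * (n - k)) := hF.pow _
    have h2 := comp_mul (b := b) h1 k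
    rw [← hb, homogeneousComponent_of_mem (homogeneousComponent_isHomogeneous k f), if_pos rfl]
      at h2
    rw [h2]
    split_ifs with h3
    · exact AddSubmonoid.subset_closure ⟨n - k, k - 3 * (n - k), _,
        homogeneousComponent_isHomogeneous _ _, by omega, rfl⟩
    · exact AddSubmonoid.zero_mem _

theorem le_hom {F : S} {v : AddValuation S ℕ∞} (hv : IsVb F v) {a : S} {e : ℕ}
    (ha : a.IsHomogeneous e) : (e : ℕ∞) ≤ v a := by
  rw [hv]
  intro k
  rw [homogeneousComponent_of_mem ha]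
  split_ifs with h
  · subst h; simp
  · exact dvd_zero _

theorem four_le {F : S} {v : AddValuation S ℕ∞} (hF : F.IsHomogeneous 3) (hv : IsVb F v) :
    ((4 : ℕ) : ℕ∞) ≤ v F := by
  rw [hv]
  intro k
  rw [homogeneousComponent_of_mem hF]
  split_ifs with h
  · subst h; simp
  · exact dvd_zero _

theorem pow_le {F : S} {v : AddValuation S ℕ∞} (hF : F.IsHomogeneous 3) (hv : IsVb F v) (m : ℕ) :
    ((4 * m : ℕ) : ℕ∞) ≤ v (F ^ m) := by
  rw [v.map_pow]
  have h := nsmul_le_nsmul_right (four_le hF hv) m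
  refine le_trans (le_of_eq ?_) h
  rw [nsmul_eq_mul]
  push_cast
  ring

theorem hom_T {a b c : S} {i j k : ℕ} (ha : a.IsHomogeneous i) (hb : b.IsHomogeneous j)
    (hc : c.IsHomogeneous k) : (T a b c).IsHomogeneous (i - 1 + (j - 1) + (k - 1)) := by
  have h : ∀ (x y z : Fin 3), (pderiv x a * pderiv y b * pderiv z c).IsHomogeneous
      (i - 1 + (j - 1) + (k - 1)) := fun x y z => (ha.pderiv.mul hb.pderiv).mul hc.pderiv
  have e : T a b c = pderiv 0 a * pderiv 1 b * pderiv 2 c - pderiv 0 a * pderiv 2 b * pderiv 1 c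
    - pderiv 1 a * pderiv 0 b * pderiv 2 c + pderiv 2 a * pderiv 0 b * pderiv 1 c
    + pderiv 1 a * pderiv 2 b * pderiv 0 c - pderiv 2 a * pderiv 1 b * pderiv 0 c := by
    rw [T]; ring
  rw [e]
  exact ((((h _ _ _).sub (h _ _ _)).sub (h _ _ _)).add (h _ _ _)).add (h _ _ _) |>.sub (h _ _ _)

theorem pderiv_hom_zero {a : S} (ha : a.IsHomogeneous 0) (i : Fin 3) : pderiv i a = 0 := by
  rw [← totalDegree_zero_iff_isHomogeneous, totalDegree_eq_zero_iff_eq_C] at ha
  rw [ha, pderiv_C]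

theorem le_T {F : S} {v : AddValuation S ℕ∞} (hv : IsVb F v) {a b c : S} {i j k : ℕ}
    (ha : a.IsHomogeneous i) (hb : b.IsHomogeneous j) (hc : c.IsHomogeneous k) :
    ((i + j + k : ℕ) : ℕ∞) ≤ 3 + v (T a b c) := by
  have key : T a b c = 0 ∨ (1 ≤ i ∧ 1 ≤ j ∧ 1 ≤ k) := by
    rcases Nat.eq_zero_or_pos i with h | h1
    · subst h; left; simp [T, pderiv_hom_zero ha]
    rcases Nat.eq_zero_or_pos j with h | h2
    · subst h; left; simp [T, pderiv_hom_zero hb]
    rcases Nat.eq_zero_or_pos k with h | h3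
    · subst h; left; simp [T, pderiv_hom_zero hc]
    exact Or.inr ⟨h1, h2, h3⟩
  rcases key with h | ⟨h1, h2, h3⟩
  · rw [h, v.map_zero]; simp
  · have h4 := le_hom hv (hom_T ha hb hc)
    have h5 : ((i + j + k : ℕ) : ℕ∞) = 3 + ((i - 1 + (j - 1) + (k - 1) : ℕ) : ℕ∞) := by
      have : i + j + k = 3 + (i - 1 + (j - 1) + (k - 1)) := by omega
      rw [this]; push_cast; ring
    rw [h5]
    gcongr

/-- the derivative of `F ^ m` is `dw F m` times the derivative of `F` -/
noncomputable def dw (F : S) (m : ℕ) : S := (m : S) * F ^ (m - 1)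

theorem le_dw {F : S} {v : AddValuation S ℕ∞} (hF : F.IsHomogeneous 3) (hv : IsVb F v) (m : ℕ) :
    ((4 * m : ℕ) : ℕ∞) ≤ 4 + v (dw F m) := by
  rcases Nat.eq_zero_or_pos m with h | h
  · subst h; simp
  · rw [dw, v.map_mul]
    have h1 := pow_le hF hv (m - 1)
    have h2 : ((4 * m : ℕ) : ℕ∞) = 4 + (0 + ((4 * (m - 1) : ℕ) : ℕ∞)) := by
      have : 4 * m = 4 + (0 + 4 * (m - 1)) := by omega
      conv_lhs => rw [this]
      push_cast
      rfl
    rw [h2]
    gcongr
    exact zero_le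

theorem pderiv_gen (F a : S) (m : ℕ) (i : Fin 3) :
    pderiv i (F ^ m * a) = F ^ m * pderiv i a + a * dw F m * pderiv i F := by
  rw [Derivation.leibniz, Derivation.leibniz_pow, dw]
  simp only [smul_eq_mul, nsmul_eq_mul]
  ring

theorem T_gen (F a b c : S) (i j k : ℕ) :
    T (F ^ i * a) (F ^ j * b) (F ^ k * c) = F ^ i * F ^ j * F ^ k * T a b c +
      dw F i * F ^ j * F ^ k * a * T F b c + F ^ i * dw F j * F ^ k * b * T a F c +
      F ^ i * F ^ j * dw F k * c * T a b F := by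
  unfold T
  simp only [pderiv_gen]
  ring

/-- arithmetic -/
theorem arith1 {x y z t : ℕ∞} {i j k a b c : ℕ} (hx : ((4 * i : ℕ) : ℕ∞) ≤ x)
    (hy : ((4 * j : ℕ) : ℕ∞) ≤ y) (hz : ((4 * k : ℕ) : ℕ∞) ≤ z)
    (ht : ((a + b + c : ℕ) : ℕ∞) ≤ 3 + t) :
    (((4 * i + a) + (4 * j + b) + (4 * k + c) : ℕ) : ℕ∞) ≤ 4 + (x + y + z + t) := by
  induction x using ENat.recTopCoe <;> induction y using ENat.recTopCoe <;>
    induction z using ENat.recTopCoe <;> induction t using ENat.recTopCoe <;> simp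
  norm_cast at *
  omega

theorem arith2 {x y z u t : ℕ∞} {i j k a b c : ℕ} (hx : ((4 * i : ℕ) : ℕ∞) ≤ 4 + x)
    (hy : ((4 * j : ℕ) : ℕ∞) ≤ y) (hz : ((4 * k : ℕ) : ℕ∞) ≤ z) (hu : (a : ℕ∞) ≤ u)
    (ht : ((3 + b + c : ℕ) : ℕ∞) ≤ 3 + t) :
    (((4 * i + a) + (4 * j + b) + (4 * k + c) : ℕ) : ℕ∞) ≤ 4 + (x + y + z + u + t) := by
  induction x using ENat.recTopCoe <;> induction y using ENat.recTopCoe <;>
    induction z using ENat.recTopCoe <;> induction t using ENat.recTopCoe <;>
    induction u using ENat.recTopCoe <;> simp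
  norm_cast at *
  omega

theorem add_le_four {v : AddValuation S ℕ∞} {x y : S} {N : ℕ∞} (hx : N ≤ 4 + v x)
    (hy : N ≤ 4 + v y) : N ≤ 4 + v (x + y) := by
  have h := v.map_add x y
  rcases le_total (v x) (v y) with h1 | h1
  · rw [min_eq_left h1] at h
    exact hx.trans (by gcongr)
  · rw [min_eq_right h1] at h
    exact hy.trans (by gcongr)

theorem gen_le {F : S} {v : AddValuation S ℕ∞} (hF : F.IsHomogeneous 3) (hv : IsVb F v)
    {a b c : S} {ea eb ec : ℕ} (ha : a.IsHomogeneous ea) (hb : b.IsHomogeneous eb)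
    (hc : c.IsHomogeneous ec) (i j k : ℕ) :
    (((4 * i + ea) + (4 * j + eb) + (4 * k + ec) : ℕ) : ℕ∞) ≤
      4 + v (T (F ^ i * a) (F ^ j * b) (F ^ k * c)) := by
  rw [T_gen]
  refine add_le_four (add_le_four (add_le_four ?_ ?_) ?_) ?_
  · rw [v.map_mul, v.map_mul, v.map_mul]
    exact arith1 (pow_le hF hv i) (pow_le hF hv j) (pow_le hF hv k) (le_T hv ha hb hc)
  · rw [v.map_mul, v.map_mul, v.map_mul, v.map_mul]
    exact arith2 (le_dw hF hv i) (pow_le hF hv j) (pow_le hF hv k) (le_hom hv ha)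
      (le_T hv hF hb hc)
  · rw [v.map_mul, v.map_mul, v.map_mul, v.map_mul]
    have h := arith2 (le_dw hF hv j) (pow_le hF hv i) (pow_le hF hv k) (le_hom hv hb)
      (b := ea) (c := ec) (t := v (T a F c)) (by
        have := le_T hv ha hF hc
        rwa [show ea + 3 + ec = 3 + ea + ec by omega] at this)
    have e1 : 4 * j + eb + (4 * i + ea) + (4 * k + ec) =
      4 * i + ea + (4 * j + eb) + (4 * k + ec) := by omega
    rw [e1, add_comm (v (dw F j)) (v (F ^ i))] at h
    exact h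
  · rw [v.map_mul, v.map_mul, v.map_mul, v.map_mul]
    have h := arith2 (le_dw hF hv k) (pow_le hF hv i) (pow_le hF hv j) (le_hom hv hc)
      (b := ea) (c := eb) (t := v (T a b F)) (by
        have := le_T hv ha hb hF
        rwa [show ea + eb + 3 = 3 + ea + eb by omega] at this)
    have e1 : 4 * k + ec + (4 * i + ea) + (4 * j + eb) =
      4 * i + ea + (4 * j + eb) + (4 * k + ec) := by omega
    rw [e1, add_assoc (v (dw F k)), add_comm (v (dw F k))] at h
    exact h

theorem main_le {F : S} {v : AddValuation S ℕ∞} (hF : F.IsHomogeneous 3) (hv : IsVb F v)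
    {n0 n1 n2 : ℕ} {f g h : S} (hf : (n0 : ℕ∞) ≤ v f) (hg : (n1 : ℕ∞) ≤ v g)
    (hh : (n2 : ℕ∞) ≤ v h) : ((n0 + n1 + n2 : ℕ) : ℕ∞) ≤ 4 + v (T f g h) := by
  have hf' := mem_closure hF hv hf
  have hg' := mem_closure hF hv hg
  have hh' := mem_closure hF hv hh
  clear hf hg hh
  induction hf' using AddSubmonoid.closure_induction with
  | zero => rw [T_zero1, v.map_zero]; simp
  | add x y _ _ hx hy => rw [T_add1]; exact add_le_four hx hy
  | mem x hx =>
    obtain ⟨i, ea, a, ha, hi, rfl⟩ := hx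
    induction hg' using AddSubmonoid.closure_induction with
    | zero => rw [T_zero2, v.map_zero]; simp
    | add x y _ _ hx hy => rw [T_add2]; exact add_le_four hx hy
    | mem x hx =>
      obtain ⟨j, eb, b, hb, hj, rfl⟩ := hx
      induction hh' using AddSubmonoid.closure_induction with
      | zero => rw [T_zero3, v.map_zero]; simp
      | add x y _ _ hx hy => rw [T_add3]; exact add_le_four hx hy
      | mem x hx =>
        obtain ⟨k, ec, c, hc, hk, rfl⟩ := hx
        refine le_trans ?_ (gen_le hF hv ha hb hc i j k)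
        exact_mod_cast (by omega)

theorem VB3 : S_VB3 := by
  intro F v hF _ hv p
  rw [jac_eq]
  by_contra hcon
  rw [not_le] at hcon
  have h := fun (n0 n1 n2 : ℕ) (h0 : (n0 : ℕ∞) ≤ v (p 0)) (h1 : (n1 : ℕ∞) ≤ v (p 1))
    (h2 : (n2 : ℕ∞) ≤ v (p 2)) => main_le hF hv h0 h1 h2
  generalize v (T (p 0) (p 1) (p 2)) = t at *
  induction t using ENat.recTopCoe with
  | top => simp at hcon
  | coe t =>
    have key : ∀ x : ℕ∞, ∃ n : ℕ, (n : ℕ∞) ≤ x ∧ (x = n ∨ t + 5 ≤ n) := by
      intro x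
      induction x using ENat.recTopCoe with
      | top => exact ⟨t + 5, le_top, Or.inr le_rfl⟩
      | coe x => exact ⟨x, le_rfl, Or.inl rfl⟩
    obtain ⟨n0, a0, b0⟩ := key (v (p 0))
    obtain ⟨n1, a1, b1⟩ := key (v (p 1))
    obtain ⟨n2, a2, b2⟩ := key (v (p 2))
    have h' := h n0 n1 n2 a0 a1 a2
    have h3 : n0 + n1 + n2 ≤ 4 + t := by exact_mod_cast h'
    have c0 : v (p 0) = n0 := b0.resolve_right (by omega)
    have c1 : v (p 1) = n1 := b1.resolve_right (by omega)
    have c2 : v (p 2) = n2 := b2.resolve_right (by omega)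
    rw [c0, c1, c2] at hcon
    exact absurd h' (not_le.2 (by push_cast; exact hcon))

end Pool.Agent.H387.MXVB3
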