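import Pool.Agent.H465.OC.StmA

set_option autoImplicit false

/-!
# Project OC (helper465), task A6: contraction and fixed point of the Frobenius lift
-/

namespace Pool.Agent.H387.OCFixPt

open Polynomial Filter Topology
open Pool.Agent.H465.OC

section padic

variable {p : ℕ} [hp : Fact p.Prime]

theorem dvd_iff (x : ℤ_[p]) (n : ℕ) :
    (p : ℤ_[p]) ^ n ∣ x ↔ ‖x‖ ≤ (p : ℝ) ^ (-(n : ℤ)) := by
  rw [PadicInt.norm_le_pow_iff_mem_span_pow, Ideal.mem_span_singleton]

/-- Fermat's little theorem -/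
theorem fermat (x : ℤ_[p]) : (p : ℤ_[p]) ∣ x ^ p - x := by
  have h1 : x ^ p - x ∈ RingHom.ker (PadicInt.toZMod (p := p)) := by
    rw [RingHom.mem_ker, map_sub, map_pow, ZMod.pow_card, sub_self]
  rw [PadicInt.ker_toZMod, PadicInt.maximalIdeal_eq_span_p, Ideal.mem_span_singleton] at h1
  exact h1

theorem zero_of_dvd {z : ℤ_[p]} (h : ∀ n : ℕ, (p : ℤ_[p]) ^ n ∣ z) : z = 0 := by
  by_contra hz
  have h1 := (dvd_iff z (z.valuation + 1)).1 (h _)
  rw [PadicInt.norm_le_pow_iff_le_valuation z hz] at h1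
  omega

theorem pow_contract {x y : ℤ_[p]} {m : ℕ} (h : (p : ℤ_[p]) ^ (m + 1) ∣ x - y) :
    (p : ℤ_[p]) ^ (m + 2) ∣ x ^ p - y ^ p := by
  have h1 : (p : ℤ_[p]) ∣ x - y := (dvd_pow_self _ (by omega)).trans h
  have h2 : (p : ℤ_[p]) ∣ ∑ i ∈ Finset.range p, x ^ i * y ^ (p - 1 - i) := by
    rw [dvd_geom_sum₂_iff_of_dvd_sub h1]
    exact dvd_mul_right _ _
  rw [← geom_sum₂_mul, pow_succ']
  exact mul_dvd_mul h2 h

/-- a sequence of increasingly close elements has a limit -/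
theorem exists_lim (u : ℕ → ℤ_[p]) (hu : ∀ n, (p : ℤ_[p]) ^ (n + 1) ∣ u (n + 1) - u n) :
    ∃ a : ℤ_[p], ∀ n, (p : ℤ_[p]) ^ (n + 1) ∣ u n - a := by
  have hp1 : (1 : ℝ) < p := by exact_mod_cast hp.out.one_lt
  have hp0 : (0 : ℝ) < p := by linarith
  have h1 : ∀ n k, (p : ℤ_[p]) ^ (n + 1) ∣ u (n + k) - u n := by
    intro n k
    induction k with
    | zero => simp
    | succ k ih =>
      have h2 : (p : ℤ_[p]) ^ (n + 1) ∣ u (n + k + 1) - u (n + k) :=
        (pow_dvd_pow _ (by omega)).trans (hu (n + k))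
      have h3 : u (n + (k + 1)) - u n = (u (n + k + 1) - u (n + k)) + (u (n + k) - u n) := by
        rw [← add_assoc]; ring
      rw [h3]
      exact dvd_add h2 ih
  have hc : CauchySeq u := by
    refine cauchySeq_of_le_geometric ((p : ℝ)⁻¹) ((p : ℝ)⁻¹) (inv_lt_one_of_one_lt₀ hp1) ?_
    intro n
    have h2 := (dvd_iff _ _).1 (hu n)
    rw [dist_comm, dist_eq_norm]
    refine h2.trans (le_of_eq ?_)
    rw [zpow_neg, zpow_natCast, pow_succ, mul_inv, inv_pow, mul_comm]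
  obtain ⟨a, ha⟩ := cauchySeq_tendsto_of_complete hc
  refine ⟨a, fun n => ?_⟩
  rw [dvd_iff]
  have h2 : Tendsto (fun k => ‖u n - u (k + n)‖) atTop (𝓝 ‖u n - a‖) :=
    (tendsto_const_nhds.sub ((tendsto_add_atTop_iff_nat n).2 ha)).norm
  refine le_of_tendsto' h2 fun k => ?_
  rw [← dvd_iff, ← dvd_neg, neg_sub, add_comm k n]
  exact h1 n k

end padic

theorem rel_pow (hR : RelRing) (p : ℕ) [Fact p.Prime] (B : Type) [CommRing B] [Algebra ℤ_[p] B]
    (j : B) (c : ℤ_[p]) (n : ℕ) : Rel j c (fun x => x ^ n) (j ^ n) := by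
  obtain ⟨h1, h2, h3⟩ := hR p B j c
  induction n with
  | zero =>
    have h4 := h2 1
    rw [map_one] at h4
    simpa using h4
  | succ n ih =>
    have h4 := (h3 _ _ _ _ ih h1).2.1
    rw [← pow_succ] at h4
    have h5 : (fun x : ℤ_[p] => x ^ n * x) = fun x => x ^ (n + 1) := by
      funext x; rw [pow_succ]
    rw [h5] at h4
    exact h4

theorem main : RelRing → RelDiv → RelLip → FixPt := by
  intro hR hDv hL p _ B _ _ j c V φ hinj hnz hVj hφ
  obtain ⟨e, he⟩ := hVj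
  have h1 := ((hR p B j c).2.2 _ _ _ _ hφ (rel_pow hR p B j c p)).2.2
  have h2 : V j - j ^ p = (p : B) ^ 1 * e := by rw [pow_one]; exact he
  rw [h2] at h1
  obtain ⟨ψ, hψ, hψ2⟩ := (hDv p B j c hinj hnz).1 _ _ _ h1
  have hlip := hL p B j c ψ e hψ
  have hφψ : ∀ x, (p : ℤ_[p]) ∣ x - c → φ x = x ^ p + p * ψ x := by
    intro x hx
    have h3 := hψ2 x hx
    rw [pow_one] at h3
    rw [← h3]; ring
  have hD : ∀ x, (p : ℤ_[p]) ∣ x - c → (p : ℤ_[p]) ∣ φ x - c := by
    intro x hx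
    have h3 : φ x - c = (x ^ p - x) + p * ψ x + (x - c) := by rw [hφψ x hx]; ring
    rw [h3]
    exact dvd_add (dvd_add (fermat x) (dvd_mul_right _ _)) hx
  have hcon : ∀ (x y : ℤ_[p]) (m : ℕ), (p : ℤ_[p]) ∣ x - c → (p : ℤ_[p]) ∣ y - c →
      (p : ℤ_[p]) ^ (m + 1) ∣ x - y → (p : ℤ_[p]) ^ (m + 2) ∣ φ x - φ y := by
    intro x y m hx hy hxy
    have h3 : φ x - φ y = (x ^ p - y ^ p) + p * (ψ x - ψ y) := by
      rw [hφψ x hx, hφψ y hy]; ring
    rw [h3]
    refine dvd_add (pow_contract hxy) ?_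
    rw [pow_succ']
    exact mul_dvd_mul_left _ (hlip x y (m + 1) hx hy hxy)
  have hcc : (p : ℤ_[p]) ∣ c - c := by rw [sub_self]; exact dvd_zero _
  have hit : ∀ x, (p : ℤ_[p]) ∣ x - c → ∀ n, (p : ℤ_[p]) ∣ φ^[n] x - c := by
    intro x hx n
    induction n with
    | zero => exact hx
    | succ n ih =>
      rw [Function.iterate_succ_apply']
      exact hD _ ih
  have hu : ∀ n, (p : ℤ_[p]) ^ (n + 1) ∣ φ^[n + 1] c - φ^[n] c := by
    intro n
    induction n with
    | zero =>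
      rw [zero_add, pow_one, Function.iterate_one, Function.iterate_zero, id]
      exact hD c hcc
    | succ n ih =>
      rw [Function.iterate_succ_apply' φ (n + 1) c, Function.iterate_succ_apply' φ n c]
      rw [Function.iterate_succ_apply' φ n c] at ih
      exact hcon _ _ n (hD _ (hit c hcc n)) (hit c hcc n) ih
  obtain ⟨c0, hc0⟩ := exists_lim (fun n => φ^[n] c) hu
  have hc0D : (p : ℤ_[p]) ∣ c0 - c := by
    have h3 := hc0 0
    simp only [zero_add, pow_one, Function.iterate_zero, id] at h3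
    rw [← dvd_neg, neg_sub]
    exact h3
  have hfix : φ c0 = c0 := by
    rw [← sub_eq_zero]
    apply zero_of_dvd
    intro n
    have h3 := hcon _ _ n (hit c hcc n) hc0D (hc0 n)
    rw [← Function.iterate_succ_apply' φ n c] at h3
    have h4 : (p : ℤ_[p]) ^ (n + 2) ∣ φ^[n + 1] c - c0 := hc0 (n + 1)
    have h5 : φ c0 - c0 = (φ^[n + 1] c - c0) - (φ^[n + 1] c - φ c0) := by ring
    rw [h5]
    exact (pow_dvd_pow _ (by omega)).trans (dvd_sub h4 h3)
  refine ⟨hD, c0, hc0D, hfix, ?_⟩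
  intro x hx m
  induction m with
  | zero =>
    rw [zero_add, pow_one, Function.iterate_zero, id]
    have h3 : x - c0 = (x - c) - (c0 - c) := by ring
    rw [h3]
    exact dvd_sub hx hc0D
  | succ m ih =>
    rw [Function.iterate_succ_apply']
    have h3 := hcon _ _ m (hit x hx m) hc0D ih
    rwa [hfix] at h3

end Pool.Agent.H387.OCFixPt
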