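import Mathlib
import Pool.Agent.H193.RF.Stm

/-!
# Centralisers and abelian normalised subgroups of `EL_3` of a domain
-/

set_option autoImplicit false

namespace Pool.Agent.H387.RFBC

open Matrix
open Pool.Agent.H258.CR
open Pool.Agent.H193.RF

section basic
variable {R : Type} [CommRing R]

/-- the matrix of an element of the elementary group -/
def mt (x : Lam R) : Matrix (Fin 3) (Fin 3) R := ((x : (Matrix (Fin 3) (Fin 3) R)ˣ) :
  Matrix (Fin 3) (Fin 3) R)

lemma mt_mul (x y : Lam R) : mt (x * y) = mt x * mt y := rfl

lemma mt_one : mt (1 : Lam R) = 1 := rfl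

lemma mt_ee {i j : Fin 3} (h : i ≠ j) (r : R) : mt (ee h r) = 1 + Matrix.single i j r := rfl

lemma mt_inj {x y : Lam R} (h : mt x = mt y) : x = y := Subtype.ext (Units.ext h)

lemma det_mt (x : Lam R) : (mt x).det = 1 := by
  have key : ∀ u : (Matrix (Fin 3) (Fin 3) R)ˣ, u ∈ Lam R →
      ((u : Matrix (Fin 3) (Fin 3) R)).det = 1 := by
    intro u hu
    unfold Lam at hu
    induction hu using Subgroup.closure_induction with
    | mem u hu =>
      obtain ⟨i, j, h, r, rfl⟩ := hu
      exact Matrix.det_transvection_of_ne i j h r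
    | one => simp
    | mul u v _ _ h1 h2 => rw [Units.val_mul, Matrix.det_mul, h1, h2, mul_one]
    | inv u _ h1 =>
      have h2 : ((u⁻¹ * u : (Matrix (Fin 3) (Fin 3) R)ˣ) : Matrix (Fin 3) (Fin 3) R).det = 1 := by
        simp
      rw [Units.val_mul, Matrix.det_mul, h1, mul_one] at h2
      exact h2
  exact key _ x.2

lemma mul_single_entry (g : Matrix (Fin 3) (Fin 3) R) (i j a b : Fin 3) (r : R) :
    (g * Matrix.single i j r) a b = if b = j then g a i * r else 0 := by
  rw [Matrix.mul_apply, Finset.sum_eq_single i]
  · by_cases hb : b = j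
    · subst hb; simp [Matrix.single_apply]
    · have : ¬ j = b := fun h => hb h.symm
      simp [Matrix.single_apply, hb, this]
  · intro c _ hc
    have : ¬ i = c := fun h => hc h.symm
    simp [Matrix.single_apply, this]
  · intro h; exact absurd (Finset.mem_univ _) h

lemma single_mul_entry (g : Matrix (Fin 3) (Fin 3) R) (i j a b : Fin 3) (r : R) :
    (Matrix.single i j r * g) a b = if a = i then r * g j b else 0 := by
  rw [Matrix.mul_apply, Finset.sum_eq_single j]
  · by_cases hb : a = i
    · subst hb; simp [Matrix.single_apply]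
    · have : ¬ i = a := fun h => hb h.symm
      simp [Matrix.single_apply, hb, this]
  · intro c _ hc
    have : ¬ j = c := fun h => hc h.symm
    simp [Matrix.single_apply, this]
  · intro h; exact absurd (Finset.mem_univ _) h

lemma comm_single {g : Matrix (Fin 3) (Fin 3) R} {i j : Fin 3} {r : R}
    (h : g * (1 + Matrix.single i j r) = (1 + Matrix.single i j r) * g) :
    g * Matrix.single i j r = Matrix.single i j r * g := by
  rw [mul_add, add_mul, mul_one, one_mul] at h
  exact add_left_cancel h

lemma exists_other (i : Fin 3) : ∃ j : Fin 3, i ≠ j := by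
  fin_cases i
  · exact ⟨1, by decide⟩
  · exact ⟨0, by decide⟩
  · exact ⟨0, by decide⟩

lemma scalar_of_comm [IsDomain R] {g : Matrix (Fin 3) (Fin 3) R} {r : R} (hr : r ≠ 0)
    (h : ∀ i j : Fin 3, i ≠ j → g * Matrix.single i j r = Matrix.single i j r * g) :
    g = Matrix.diagonal (fun _ => g 0 0) := by
  have hoff : ∀ a i : Fin 3, a ≠ i → g a i = 0 := by
    intro a i hai
    obtain ⟨j, hj⟩ := exists_other i
    have h1 := congrFun (congrFun (h i j hj) a) j
    rw [mul_single_entry, single_mul_entry, if_pos rfl, if_neg hai] at h1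
    exact (mul_eq_zero.mp h1).resolve_right hr
  have hdiag : ∀ i : Fin 3, g i i = g 0 0 := by
    intro i
    by_cases hi : i = 0
    · rw [hi]
    · have h1 := congrFun (congrFun (h i 0 hi) i) 0
      rw [mul_single_entry, single_mul_entry, if_pos rfl, if_pos rfl, mul_comm] at h1
      exact mul_left_cancel₀ hr h1
  ext a b
  by_cases hab : a = b
  · subst hab; rw [Matrix.diagonal_apply_eq, hdiag]
  · rw [Matrix.diagonal_apply_ne _ hab, hoff a b hab]

end basic

theorem s_B : S_B := by
  intro R _ _ hu r hr x hx
  have h1 : ∀ i j : Fin 3, i ≠ j →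
      mt x * Matrix.single i j r = Matrix.single i j r * mt x := by
    intro i j hij
    have h2 := congrArg mt (hx i j hij)
    rw [mt_mul, mt_mul, mt_ee] at h2
    exact comm_single h2
  have h3 := scalar_of_comm hr h1
  have h4 := det_mt x
  rw [h3, Matrix.det_diagonal] at h4
  have h5 : (mt x 0 0) ^ 3 = 1 := by simpa using h4
  have h6 := hu _ h5
  apply mt_inj
  rw [h3, h6, mt_one]
  exact Matrix.diagonal_one

open Classical in
lemma ideal_two_elems {R : Type} [CommRing R] [Infinite R] (J : Ideal R) (hJ : Finite (R ⧸ J)) :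
    ∃ r ∈ J, ∃ s ∈ J, r ≠ 0 ∧ s ≠ 0 ∧ r ≠ s := by
  have hinf : Infinite J := by
    by_contra hfin
    rw [not_infinite_iff_finite] at hfin
    haveI : Finite J.toAddSubgroup := hfin
    haveI : Finite (R ⧸ J.toAddSubgroup) := hJ
    have : Finite R := Finite.of_addSubgroup_quotient J.toAddSubgroup
    exact not_finite R
  obtain ⟨r, hr⟩ := Infinite.exists_notMem_finset ({0} : Finset J)
  obtain ⟨s, hs⟩ := Infinite.exists_notMem_finset ({0, r} : Finset J)
  refine ⟨r, r.2, s, s.2, ?_, ?_, ?_⟩
  · intro h; apply hr; rw [Finset.mem_singleton]; exact Subtype.ext h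
  · intro h; apply hs; rw [Finset.mem_insert]; left; exact Subtype.ext h
  · intro h; apply hs; rw [Finset.mem_insert, Finset.mem_singleton]; right
    exact Subtype.ext h.symm

theorem s_C : S_C := by
  intro R _ _ _ h2 hu J hJ K hK hab x hx
  have hneg : ∀ r : R, -r = r := fun r => neg_eq_of_add_eq_zero_left (h2 r)
  have hinv : ∀ {i j : Fin 3} (h : i ≠ j) (r : R), (ee h r)⁻¹ = ee h r := by
    intro i j h r
    rw [← ee_neg, hneg]
  obtain ⟨r, hrJ, s, hsJ, hr0, hs0, hrs⟩ := ideal_two_elems J hJ
  -- quadratic relation
  have quad : ∀ y ∈ K, ∀ (i j : Fin 3) (h : i ≠ j) (t : R), t ∈ J →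
      mt y * ((1 + Matrix.single i j t) * mt y * (1 + Matrix.single i j t)) =
      ((1 + Matrix.single i j t) * mt y * (1 + Matrix.single i j t)) * mt y := by
    intro y hy i j h t ht
    have h3 := hK i j h t ht y hy
    have h4 := hab y hy _ h3
    rw [hinv] at h4
    have h5 := congrArg mt h4
    simpa only [mt_mul, mt_ee] using h5
  -- consequence for entries
  have offdiag : ∀ y ∈ K, ∀ (i j : Fin 3), i ≠ j → mt y j i = 0 := by
    intro y hy i j h
    set g := mt y with hg
    have hE : ∀ t : R, Matrix.single i j t = t • (Matrix.single i j (1 : R)) := by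
      intro t; rw [Matrix.smul_single, smul_eq_mul, mul_one]
    set E : Matrix (Fin 3) (Fin 3) R := Matrix.single i j (1 : R) with hEdef
    have hrel : ∀ t ∈ J, t • (g * g * E - E * g * g) + (t * t) • (g * E * g * E - E * g * E * g) = 0 := by
      intro t ht
      have h3 := quad y hy i j h t ht
      rw [hE t, ← hg] at h3
      have h4 : g * ((1 + t • E) * g * (1 + t • E)) - ((1 + t • E) * g * (1 + t • E)) * g =
          t • (g * g * E - E * g * g) + (t * t) • (g * E * g * E - E * g * E * g) := by
        simp only [add_mul, mul_add, one_mul, mul_one, smul_mul_assoc, mul_smul_comm, smul_add,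
          smul_sub, smul_smul, ← mul_assoc]
        abel
      rw [← h4, h3, sub_self]
    have hB : g * E * g * E - E * g * E * g = 0 := by
      have h3 : ∀ t ∈ J, t ≠ 0 → (g * g * E - E * g * g) + t • (g * E * g * E - E * g * E * g) = 0 := by
        intro t ht ht0
        have h4 := hrel t ht
        rw [mul_smul, ← smul_add] at h4
        exact (smul_eq_zero.mp h4).resolve_left ht0
      have h5 := h3 r hrJ hr0
      have h6 := h3 s hsJ hs0
      have h7 : (r - s) • (g * E * g * E - E * g * E * g) = 0 := by
        rw [sub_smul]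
        have h8 := congrArg₂ (· - ·) h5 h6
        simp only [sub_zero] at h8
        rw [add_sub_add_left_eq_sub] at h8
        exact h8
      exact (smul_eq_zero.mp h7).resolve_left (sub_ne_zero.mpr hrs)
    have hEgE : E * g * E = g j i • E := by
      ext a b
      rw [hEdef, mul_single_entry, single_mul_entry, Matrix.smul_apply, Matrix.single_apply]
      by_cases hb : b = j <;> by_cases ha : a = i
      · subst hb; subst ha; simp
      · have : ¬ i = a := fun h => ha h.symm
        simp [ha, this]
      · have : ¬ j = b := fun h => hb h.symm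
        simp [hb, this]
      · have : ¬ j = b := fun h => hb h.symm
        simp [hb, this]
    have h8 : g j i • (g * E - E * g) = 0 := by
      rw [smul_sub]
      have h9 : g * E * g * E = g j i • (g * E) := by
        rw [mul_assoc, mul_assoc, ← mul_assoc E g E, hEgE, mul_smul_comm]
      have h10 : E * g * E * g = g j i • (E * g) := by
        rw [hEgE, smul_mul_assoc]
      rw [← h9, ← h10]
      exact hB
    rcases smul_eq_zero.mp h8 with h9 | h9
    · exact h9
    · have h10 := congrFun (congrFun (sub_eq_zero.mp h9) j) j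
      rw [hEdef, mul_single_entry, single_mul_entry, if_pos rfl, if_neg h.symm, mul_one] at h10
      exact h10
  have diag : ∀ (i j : Fin 3), i ≠ j → mt x i i = mt x j j := by
    intro i j h
    have h3 := offdiag _ (hK i j h r hrJ x hx) j i h.symm
    rw [hinv, mt_mul, mt_mul, mt_ee] at h3
    rw [add_mul, one_mul, mul_add, mul_one, Matrix.add_apply, Matrix.add_apply,
      mul_single_entry, if_pos rfl, single_mul_entry, if_pos rfl, Matrix.add_apply,
      single_mul_entry, if_pos rfl, offdiag x hx j i h.symm, offdiag x hx i j h, mul_zero,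
      add_zero, zero_add] at h3
    have h4 : r * (mt x j j + mt x i i) = 0 := by
      rw [mul_add, mul_comm r (mt x i i)]; exact h3
    have h5 := (mul_eq_zero.mp h4).resolve_left hr0
    have h6 := eq_neg_of_add_eq_zero_left h5
    rw [hneg] at h6
    exact h6.symm
  apply s_B R hu 1 one_ne_zero x
  intro i j h
  apply mt_inj
  rw [mt_mul, mt_mul, mt_ee]
  have hx1 : mt x = Matrix.diagonal (fun _ => mt x 0 0) := by
    ext a b
    by_cases hab : a = b
    · subst hab
      rw [Matrix.diagonal_apply_eq]
      by_cases ha : a = 0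
      · rw [ha]
      · exact diag a 0 ha
    · rw [Matrix.diagonal_apply_ne _ hab]
      exact offdiag x hx b a (fun h => hab h.symm)
  rw [hx1]
  have : (Matrix.diagonal (fun _ : Fin 3 => mt x 0 0)) = Matrix.scalar (Fin 3) (mt x 0 0) := rfl
  rw [this]
  exact (Matrix.scalar_commute (mt x 0 0) (fun r' => mul_comm _ _) _).eq

end Pool.Agent.H387.RFBC
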