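import Pool.Agent.H770.GS.TC

/-!
# Project TC: `n3 r c (c v) = Qf r c v` when `c (r + v) ≤ 2 r`
-/

set_option autoImplicit false

open MeasureTheory Set intervalIntegral

namespace Pool.Agent.H387.TCn3Q1

open Pool.Agent.H770.GS

theorem n3Q1 : S_n3Q1 := by
  intro r c v hr hc hv hvr hc1
  have hn := nL_cont r
  have hW := W_cont
  -- substitution
  have e1 : n3 r c (c * v) = ∫ a in (v - r)..(v + r), W (a - v) * nLo r (c * a) := by
    unfold n3
    have h := integral_comp_add_left (fun a => W (a - v) * nLo r (c * a)) v (a := -r) (b := r)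
    rw [← sub_eq_add_neg] at h
    rw [← h]
    refine integral_congr fun w _ => ?_
    have a1 : v + w - v = w := by ring
    have a2 : c * (v + w) = c * v + c * w := by ring
    rw [a1, a2]
  -- the two pieces
  have hR : EqOn (fun a => W (a - v) * nL r (c * a)) (fun a => W (a - v) * nLo r (c * a))
      (uIoo 0 (v + r)) := by
    intro a ha
    rw [uIoo_of_le (by linarith)] at ha
    have h1 : 0 < c * a := mul_pos hc ha.1
    have h2 : c * a ≤ 2 * r := by
      have h3 : c * a ≤ c * (r + v) := mul_le_mul_of_nonneg_left (by linarith [ha.2]) hc.le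
      linarith
    have h3 : nLo r (c * a) = nL r (c * a) := by
      unfold nLo
      rw [if_pos ⟨h1, h2⟩]
    simp only [h3]
  have hL : EqOn (fun a => -(W (a - v) * nL r (c * -a))) (fun a => W (a - v) * nLo r (c * a))
      (uIoo (v - r) 0) := by
    intro a ha
    rw [uIoo_of_le (by linarith)] at ha
    have h0 : 0 < -a := by linarith [ha.2]
    have h1 : 0 < c * -a := mul_pos hc h0
    have h2 : c * -a ≤ 2 * r := by
      have h3 : c * -a ≤ c * (r + v) := mul_le_mul_of_nonneg_left (by linarith [ha.1]) hc.le
      linarith
    have h3 : nLo r (c * a) = - nL r (c * -a) := by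
      unfold nLo
      rw [if_neg (by intro h; linarith [h.1]), if_pos ⟨by linarith, by linarith⟩]
      congr 2
      ring
    simp only [h3]
    ring
  have iR : IntervalIntegrable (fun a => W (a - v) * nLo r (c * a)) volume 0 (v + r) :=
    IntervalIntegrable.congr_uIoo
      (Continuous.intervalIntegrable (by fun_prop) _ _) hR
  have iL : IntervalIntegrable (fun a => W (a - v) * nLo r (c * a)) volume (v - r) 0 :=
    IntervalIntegrable.congr_uIoo
      (Continuous.intervalIntegrable (by fun_prop) _ _) hL
  rw [e1, ← integral_add_adjacent_intervals iL iR, ← integral_congr_uIoo hL,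
    ← integral_congr_uIoo hR, intervalIntegral.integral_neg]
  have e2 : ∫ a in (v - r)..0, W (a - v) * nL r (c * -a) =
      ∫ a in (0:ℝ)..(r - v), W (a + v) * nL r (c * a) := by
    have h := integral_comp_neg (fun a => W (a - v) * nL r (c * -a)) (a := 0) (b := r - v)
    have a1 : -(r - v) = v - r := by ring
    rw [neg_zero, a1] at h
    rw [← h]
    refine integral_congr fun w _ => ?_
    simp only [neg_neg]
    have a2 : -w - v = -(w + v) := by ring
    rw [a2, W_even]
  rw [e2]
  unfold Qf
  rw [add_comm v r]
  ring

end Pool.Agent.H387.TCn3Q1
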