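import Pool.Agent.H770.GS.TL
import Pool.Agent.H967.TEshapeG

/-!
# Project TL: monotonicity of the weight `Mc r c a / W a` for `r ^ 2 ≥ 3`, `c ≤ 1` (`S_TL2`)

With `x = c a`, `s = c ^ 2`, `q = r - x / 2` the claim is `F = B0 + s A ≥ 0`, affine in `s`, where
`B0 = 1 - q x + x² + x³ P/4`, `A = (6x - x³)/8 P + 2 - q² + 3 q x/2 - 3 x²/4` and `P` is the partial sum of
degree nine of `ρ(q) = e^(q²) I2 q`.
-/

set_option autoImplicit false

open MeasureTheory Set intervalIntegral Filter Topology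

namespace Pool.Agent.H387.TL2

open Pool.Agent.H770.GS Pool.Agent.H37.GSmono Pool.Agent.H967.TEshapeG

/-- the partial sum of degree nine of `e^(q²) I2 q` -/
noncomputable def P5 (q : ℝ) : ℝ :=
  2 * q + 4 / 3 * q ^ 3 + 8 / 15 * q ^ 5 + 16 / 105 * q ^ 7 + 32 / 945 * q ^ 9

theorem P5_le {q : ℝ} (hq : 0 ≤ q) : P5 q * Real.exp (-q ^ 2) ≤ I2 q := by
  have hd : ∀ x, HasDerivAt (fun q : ℝ => I2 q - P5 q * Real.exp (-q ^ 2))
      (64 / 945 * x ^ 10 * Real.exp (-x ^ 2)) x := by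
    intro x
    have h1 : HasDerivAt (fun q : ℝ => Real.exp (-q ^ 2)) (Real.exp (-x ^ 2) * (-(2 * x))) x := by
      have : HasDerivAt (fun q : ℝ => -q ^ 2) (-(2 * x)) x := by
        refine (hasDerivAt_pow 2 x).fun_neg.congr_deriv ?_
        norm_num
      exact this.exp
    have h2 : HasDerivAt P5
        (2 + 4 * x ^ 2 + 8 / 3 * x ^ 4 + 16 / 15 * x ^ 6 + 32 / 105 * x ^ 8) x := by
      unfold P5
      refine (((((hasDerivAt_id x).const_mul (2 : ℝ)).add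
        ((hasDerivAt_pow 3 x).const_mul (4 / 3 : ℝ))).add
        ((hasDerivAt_pow 5 x).const_mul (8 / 15 : ℝ))).add
        ((hasDerivAt_pow 7 x).const_mul (16 / 105 : ℝ))).add
        ((hasDerivAt_pow 9 x).const_mul (32 / 945 : ℝ)) |>.congr_deriv ?_
      norm_num
      ring
    refine ((I2_deriv x).sub (h2.mul h1)).congr_deriv ?_
    unfold P5
    ring
  have hmono : MonotoneOn (fun q : ℝ => I2 q - P5 q * Real.exp (-q ^ 2)) (Ici 0) := by
    refine monotoneOn_of_deriv_nonneg (convex_Ici _) ?_ ?_ ?_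
    · exact fun x _ => (hd x).continuousAt.continuousWithinAt
    · exact fun x _ => (hd x).differentiableAt.differentiableWithinAt
    · intro x hx
      rw [interior_Ici] at hx
      rw [(hd x).deriv]
      have := Real.exp_pos (-x ^ 2)
      positivity
  have h := hmono (mem_Ici.2 le_rfl) (mem_Ici.2 hq) hq
  simp only [I2_zero] at h
  have e : P5 0 = 0 := by
    unfold P5
    norm_num
  rw [e] at h
  linarith

theorem rng {q x P κ β : ℝ} (hx : 0 ≤ x) (hq : 0 ≤ q)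
    (hP : κ * (8000 / 299) * q ^ 3 ≤ P) (hb : q ^ 2 - 2 ≤ β * q ^ 2)
    (hc : ∀ u : ℝ, 0 ≤ u → 0 ≤ 1 - u / 20 - β * u ^ 2 + κ * u ^ 3) :
    0 ≤ 1 - q * x + 400 * x ^ 2 * (2 - q ^ 2) + 299 * x ^ 3 * P := by
  have h0 := hc (20 * q * x) (by positivity)
  have h1 : 299 * x ^ 3 * (κ * (8000 / 299) * q ^ 3) ≤ 299 * x ^ 3 * P :=
    mul_le_mul_of_nonneg_left hP (by positivity)
  have h2 : 400 * x ^ 2 * (q ^ 2 - 2) ≤ 400 * x ^ 2 * (β * q ^ 2) :=
    mul_le_mul_of_nonneg_left hb (by positivity)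
  have e1 : 299 * x ^ 3 * (κ * (8000 / 299) * q ^ 3) = κ * (20 * q * x) ^ 3 := by ring
  have e2 : 400 * x ^ 2 * (β * q ^ 2) = β * (20 * q * x) ^ 2 := by ring
  have e3 : 20 * q * x / 20 = q * x := by ring
  rw [e1] at h1
  rw [e2] at h2
  rw [e3] at h0
  nlinarith

theorem P5_ge {q Q0 : ℝ} (hq : 0 ≤ q) (h0 : 0 ≤ Q0) (hQ : Q0 ≤ q ^ 2) :
    (4 / 3 + 8 / 15 * Q0 + 16 / 105 * Q0 ^ 2 + 32 / 945 * Q0 ^ 3) * q ^ 3 ≤ P5 q := by
  have h2 : Q0 ^ 2 ≤ (q ^ 2) ^ 2 := pow_le_pow_left₀ h0 hQ 2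
  have h3 : Q0 ^ 3 ≤ (q ^ 2) ^ 3 := pow_le_pow_left₀ h0 hQ 3
  have e : P5 q = 2 * q +
      (4 / 3 + 8 / 15 * q ^ 2 + 16 / 105 * (q ^ 2) ^ 2 + 32 / 945 * (q ^ 2) ^ 3) * q ^ 3 := by
    unfold P5
    ring
  rw [e]
  have h4 : (4 / 3 + 8 / 15 * Q0 + 16 / 105 * Q0 ^ 2 + 32 / 945 * Q0 ^ 3) * q ^ 3 ≤
      (4 / 3 + 8 / 15 * q ^ 2 + 16 / 105 * (q ^ 2) ^ 2 + 32 / 945 * (q ^ 2) ^ 3) * q ^ 3 := by
    apply mul_le_mul_of_nonneg_right _ (by positivity)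
    linarith
  linarith

/-- the cubic -/
theorem cub {β κ m : ℝ} (hm : 0 ≤ m) (hκ : 0 ≤ κ) (h1 : β ≤ 3 / 2 * κ * m)
    (h2 : (1 / 20) ^ 2 ≤ 4 * (3 / 2 * κ * m - β) * (1 - κ * m ^ 3 / 2))
    (h3 : 0 < 1 - κ * m ^ 3 / 2) (u : ℝ) (hu : 0 ≤ u) :
    0 ≤ 1 - u / 20 - β * u ^ 2 + κ * u ^ 3 := by
  have h4 : 0 ≤ κ * ((u - m) ^ 2 * (u + m / 2)) := by positivity
  have h5 : κ * ((u - m) ^ 2 * (u + m / 2)) =
      κ * u ^ 3 - 3 / 2 * κ * m * u ^ 2 + κ * m ^ 3 / 2 := by ring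
  rw [h5] at h4
  have h6 : 0 ≤ (1 - κ * m ^ 3 / 2) * ((1 - κ * m ^ 3 / 2) - u / 20 +
      (3 / 2 * κ * m - β) * u ^ 2) := by
    have h7 : (1 - κ * m ^ 3 / 2) * ((1 - κ * m ^ 3 / 2) - u / 20 +
      (3 / 2 * κ * m - β) * u ^ 2) = ((1 - κ * m ^ 3 / 2) - u / 40) ^ 2 +
      (4 * (3 / 2 * κ * m - β) * (1 - κ * m ^ 3 / 2) - (1 / 20) ^ 2) * (u ^ 2 / 4) := by ring
    rw [h7]
    have : 0 ≤ (4 * (3 / 2 * κ * m - β) * (1 - κ * m ^ 3 / 2) - (1 / 20) ^ 2) * (u ^ 2 / 4) :=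
      mul_nonneg (by linarith) (by positivity)
    positivity
  have h8 := nonneg_of_mul_nonneg_right h6 h3
  linarith

/-- small `x` -/
theorem small {q x : ℝ} (hx : 0 ≤ x) (hx1 : x ≤ 1 / 20) (hq : 0 ≤ q) :
    0 ≤ 1 - q * x + 400 * x ^ 2 * (2 - q ^ 2) + 299 * x ^ 3 * P5 q := by
  have hP0 : 0 ≤ P5 q := by
    unfold P5
    positivity
  rcases le_total (q ^ 2) 2 with h | h
  · have hq2 : q ≤ 2 := by nlinarith
    have h1 : q * x ≤ 2 * (1 / 20) := mul_le_mul hq2 hx1 hx (by norm_num)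
    have h2 : 0 ≤ 400 * x ^ 2 * (2 - q ^ 2) := mul_nonneg (by positivity) (by linarith)
    have h3 : 0 ≤ 299 * x ^ 3 * P5 q := by positivity
    linarith
  rcases le_total (q ^ 2) 3 with h3 | h3
  · have hP := P5_ge hq (by norm_num : (0:ℝ) ≤ 2) h
    refine rng (κ := 0.12) (β := 1 / 3) hx hq ?_ (by linarith) ?_
    · refine le_trans (mul_le_mul_of_nonneg_right ?_ (by positivity)) hP
      norm_num
    · exact cub (m := 1.9) (by norm_num) (by norm_num) (by norm_num) (by norm_num) (by norm_num)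
  rcases le_total (q ^ 2) 4 with h4 | h4
  · have hP := P5_ge hq (by norm_num : (0:ℝ) ≤ 3) h3
    refine rng (κ := 0.19) (β := 1 / 2) hx hq ?_ (by linarith) ?_
    · refine le_trans (mul_le_mul_of_nonneg_right ?_ (by positivity)) hP
      norm_num
    · exact cub (m := 1.8) (by norm_num) (by norm_num) (by norm_num) (by norm_num) (by norm_num)
  rcases le_total (q ^ 2) 6 with h6 | h6
  · have hP := P5_ge hq (by norm_num : (0:ℝ) ≤ 4) h4
    refine rng (κ := 0.3) (β := 2 / 3) hx hq ?_ (by linarith) ?_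
    · refine le_trans (mul_le_mul_of_nonneg_right ?_ (by positivity)) hP
      norm_num
    · exact cub (m := 1.55) (by norm_num) (by norm_num) (by norm_num) (by norm_num) (by norm_num)
  · have hP := P5_ge hq (by norm_num : (0:ℝ) ≤ 6) h6
    refine rng (κ := 0.64) (β := 1) hx hq ?_ (by linarith) ?_
    · refine le_trans (mul_le_mul_of_nonneg_right ?_ (by positivity)) hP
      norm_num
    · exact cub (m := 1.1) (by norm_num) (by norm_num) (by norm_num) (by norm_num) (by norm_num)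

/-- the coefficient of `s` -/
noncomputable def Aq (q x : ℝ) : ℝ :=
  (6 * x - x ^ 3) / 8 * P5 q + 2 - q ^ 2 + 3 * q * x / 2 - 3 * x ^ 2 / 4

/-- the value at `s = 0` -/
noncomputable def B0 (q x : ℝ) : ℝ := 1 - q * x + x ^ 2 + x ^ 3 * P5 q / 4

theorem B0_nonneg {q x : ℝ} (hx : 0 ≤ x) (hq : 0 ≤ q) : 0 ≤ B0 q x := by
  have h1 : 4 / 3 * q ^ 3 ≤ P5 q := by
    unfold P5
    have : 0 ≤ 2 * q + 8 / 15 * q ^ 5 + 16 / 105 * q ^ 7 + 32 / 945 * q ^ 9 := by positivity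
    linarith
  have h2 : x ^ 3 * (4 / 3 * q ^ 3) ≤ x ^ 3 * P5 q := mul_le_mul_of_nonneg_left h1 (by positivity)
  have h3 : 0 ≤ 1 - q * x + (q * x) ^ 3 / 3 := by
    have h4 : 0 ≤ q * x := by positivity
    nlinarith [mul_nonneg h4 (sq_nonneg (q * x - 1)), sq_nonneg (q * x - 1)]
  unfold B0
  nlinarith [sq_nonneg x]

/-- `s = 1` -/
theorem big {q x : ℝ} (hx : 1 / 20 ≤ x) (hq : 0 ≤ q) : 0 ≤ B0 q x + Aq q x := by
  have e : B0 q x + Aq q x =
      (6 * x + x ^ 3) / 8 * P5 q + 3 - q ^ 2 + q * x / 2 + x ^ 2 / 4 := by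
    unfold B0 Aq
    ring
  rw [e]
  have hx0 : 0 < x := by linarith
  have hP0 : 0 ≤ P5 q := by
    unfold P5
    positivity
  have h1 : 3 / 80 * P5 q ≤ (6 * x + x ^ 3) / 8 * P5 q := by
    apply mul_le_mul_of_nonneg_right _ hP0
    have : 0 ≤ x ^ 3 := by positivity
    linarith
  have h2 : 0 ≤ 3 / 80 * P5 q + 3 - q ^ 2 := by
    rcases le_total (q ^ 2) 3 with h | h
    · linarith
    · have h17 : 1.7 ≤ q := by nlinarith
      have e1 : P5 q = 2 * q + q * (4 / 3 * q ^ 2 + 8 / 15 * (q ^ 2) ^ 2 + 16 / 105 * (q ^ 2) ^ 3 +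
          32 / 945 * (q ^ 2) ^ 4) := by
        unfold P5
        ring
      have h3 : 1.7 * (4 / 3 * q ^ 2 + 8 / 15 * (q ^ 2) ^ 2 + 16 / 105 * (q ^ 2) ^ 3) ≤ P5 q := by
        rw [e1]
        have h4 : 1.7 * (4 / 3 * q ^ 2 + 8 / 15 * (q ^ 2) ^ 2 + 16 / 105 * (q ^ 2) ^ 3 +
          32 / 945 * (q ^ 2) ^ 4) ≤ q * (4 / 3 * q ^ 2 + 8 / 15 * (q ^ 2) ^ 2 +
            16 / 105 * (q ^ 2) ^ 3 + 32 / 945 * (q ^ 2) ^ 4) :=
          mul_le_mul_of_nonneg_right h17 (by positivity)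
        have h5 : 0 ≤ (q ^ 2) ^ 4 := by positivity
        linarith
      generalize q ^ 2 = Q at h h3
      have h6 : 0 ≤ 3 / 80 * (1.7 * (4 / 3 * Q + 8 / 15 * Q ^ 2 + 16 / 105 * Q ^ 3)) + 3 - Q := by
        nlinarith [mul_nonneg (by linarith : (0:ℝ) ≤ Q) (sq_nonneg (Q - 4.6)),
          sq_nonneg (Q - 4.6)]
      linarith
  have h7 : 0 ≤ q * x / 2 + x ^ 2 / 4 := by positivity
  linarith

/-- `s = 400 x²` -/
theorem mid {q x : ℝ} (hx : 0 ≤ x) (hx1 : x ≤ 1 / 20) (hq : 0 ≤ q) (hx2 : x ≤ 2 * q) :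
    0 ≤ B0 q x + 400 * x ^ 2 * Aq q x := by
  have hP0 : 0 ≤ P5 q := by
    unfold P5
    positivity
  have e : B0 q x + 400 * x ^ 2 * Aq q x = (1 - q * x + 400 * x ^ 2 * (2 - q ^ 2) +
      299 * x ^ 3 * P5 q) + x ^ 2 + x ^ 3 * P5 q / 4 + 300 * x ^ 3 * (2 * q - x) +
      x ^ 3 * P5 q * (1 - 50 * x ^ 2) := by
    unfold B0 Aq
    ring
  rw [e]
  have h1 := small hx hx1 hq
  have h2 : 0 ≤ x ^ 3 * P5 q * (1 - 50 * x ^ 2) := by
    apply mul_nonneg (by positivity)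
    nlinarith
  have h3 : 0 ≤ 300 * x ^ 3 * (2 * q - x) := mul_nonneg (by positivity) (by linarith)
  have h4 : 0 ≤ x ^ 2 + x ^ 3 * P5 q / 4 := by positivity
  linarith

theorem general {q x s : ℝ} (hq : 0 ≤ q) (hx : 0 ≤ x) (hs : 0 ≤ s) (hs1 : s ≤ 1)
    (h : s ≤ 400 * x ^ 2) : 0 ≤ B0 q x + s * Aq q x := by
  have hB := B0_nonneg hx hq
  rcases le_or_gt 0 (Aq q x) with hA | hA
  · have := mul_nonneg hs hA
    linarith
  rcases le_total (1 / 20) x with h1 | h1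
  · have h2 := big h1 hq
    nlinarith
  · have hP0 : 0 ≤ P5 q := by
      unfold P5
      positivity
    have hx2 : x ≤ 2 * q := by
      by_contra hc
      push Not at hc
      have h3 : 0 ≤ (6 * x - x ^ 3) / 8 * P5 q := by
        apply mul_nonneg _ hP0
        have : x ^ 3 ≤ x := by nlinarith [sq_nonneg x]
        linarith
      unfold Aq at hA
      nlinarith
    have h2 := mid hx h1 hq hx2
    have h3 : 400 * x ^ 2 * Aq q x ≤ s * Aq q x := mul_le_mul_of_nonpos_right h hA.le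
    linarith

/-- the special case -/
theorem special {r q x s : ℝ} (hq : 0 ≤ q) (hx : 0 ≤ x) (hrq : r = q + x / 2) (hr : 3 ≤ r ^ 2)
    (hs : 0 ≤ s) (h : s * (r ^ 2 - 2) ≤ 1) : 0 ≤ B0 q x + s * Aq q x := by
  have hB := B0_nonneg hx hq
  rcases le_or_gt 0 (Aq q x) with hA | hA
  · have := mul_nonneg hs hA
    linarith
  have hP : 2 * q + 4 / 3 * q ^ 3 ≤ P5 q := by
    unfold P5
    have : 0 ≤ 8 / 15 * q ^ 5 + 16 / 105 * q ^ 7 + 32 / 945 * q ^ 9 := by positivity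
    linarith
  obtain ⟨δ, hδ⟩ : ∃ δ : ℝ, δ = x / 2 := ⟨_, rfl⟩
  have hδ0 : 0 ≤ δ := by rw [hδ]; positivity
  have hxδ : x = 2 * δ := by rw [hδ]; ring
  have hr' : r = q + δ := by rw [hrq, hδ]
  -- the core inequality
  have core : 0 ≤ 2 * δ ^ 3 + 4 * q * δ ^ 2 + 6 * q - 5 * δ := by
    rcases le_total 5 (2 * δ ^ 2) with h5 | h5
    · have h6 : 0 ≤ δ * (2 * δ ^ 2 - 5) := mul_nonneg hδ0 (by linarith)
      have h7 : 0 ≤ 4 * q * δ ^ 2 + 6 * q := by positivity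
      nlinarith
    · have h6 : δ ≤ 1.6 := by nlinarith
      have h7 : 1.73 - δ ≤ q := by
        have h8 : 3 ≤ (q + δ) ^ 2 := by rw [← hr']; exact hr
        nlinarith
      have h9 : 4 * (1.73 - δ) * δ ^ 2 ≤ 4 * q * δ ^ 2 := by
        apply mul_le_mul_of_nonneg_right _ (sq_nonneg δ)
        linarith
      have h10 : 0 ≤ 2 * δ ^ 3 + 4 * (1.73 - δ) * δ ^ 2 + 6 * (1.73 - δ) - 5 * δ := by
        have e : 2 * δ ^ 3 + 4 * (1.73 - δ) * δ ^ 2 + 6 * (1.73 - δ) - 5 * δ =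
            10.38 - 11 * δ + δ ^ 2 * (6.92 - 2 * δ) := by ring
        rw [e]
        have h11 : δ ^ 2 * 3.72 ≤ δ ^ 2 * (6.92 - 2 * δ) :=
          mul_le_mul_of_nonneg_left (by linarith) (sq_nonneg δ)
        nlinarith [sq_nonneg (δ - 1.478)]
      linarith
  have T : 0 ≤ (6 + x ^ 2 * (2 * r ^ 2 - 5)) / 8 * P5 q + 9 / 2 * r - r ^ 3 +
      x * (3 / 2 * r ^ 2 - 19 / 4) := by
    have h1 : (6 + x ^ 2 * 1) / 8 * (2 * q + 4 / 3 * q ^ 3) ≤
        (6 + x ^ 2 * (2 * r ^ 2 - 5)) / 8 * P5 q := by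
      apply mul_le_mul _ hP (by positivity)
      · have : 0 ≤ x ^ 2 * (2 * r ^ 2 - 5) := mul_nonneg (sq_nonneg x) (by linarith)
        positivity
      · have : x ^ 2 * 1 ≤ x ^ 2 * (2 * r ^ 2 - 5) :=
          mul_le_mul_of_nonneg_left (by linarith) (sq_nonneg x)
        linarith
    have h2 : (6 + x ^ 2 * 1) / 8 * (2 * q + 4 / 3 * q ^ 3) + 9 / 2 * r - r ^ 3 +
        x * (3 / 2 * r ^ 2 - 19 / 4) =
        (2 * δ ^ 3 + 4 * q * δ ^ 2 + 6 * q - 5 * δ) + 2 / 3 * q ^ 3 * δ ^ 2 := by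
      rw [hxδ, hr']
      ring
    have h3 : 0 ≤ 2 / 3 * q ^ 3 * δ ^ 2 := by positivity
    linarith
  have h2 : 0 < r ^ 2 - 2 := by linarith
  have h3 : 0 ≤ (r ^ 2 - 2) * (B0 q x + s * Aq q x) := by
    have e : (r ^ 2 - 2) * B0 q x + Aq q x =
        x * ((6 + x ^ 2 * (2 * r ^ 2 - 5)) / 8 * P5 q + 9 / 2 * r - r ^ 3 +
          x * (3 / 2 * r ^ 2 - 19 / 4)) := by
      unfold B0 Aq
      rw [hrq]
      ring
    have h4 : 0 ≤ (r ^ 2 - 2) * B0 q x + Aq q x := by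
      rw [e]
      exact mul_nonneg hx T
    have h5 : 1 * Aq q x ≤ (s * (r ^ 2 - 2)) * Aq q x := mul_le_mul_of_nonpos_right h hA.le
    nlinarith
  exact nonneg_of_mul_nonneg_right h3 h2

/-- the bracket -/
theorem bracket (r x s : ℝ) (P : ℝ) (hP : P = P5 (r - x / 2)) :
    x * (3 * s / 4 + x ^ 2 * (2 - s) / 8) * P + Bb r s x =
      B0 (r - x / 2) x + s * Aq (r - x / 2) x := by
  unfold B0 Aq Bb
  rw [← hP]
  ring

theorem Gd_nonneg {r c a : ℝ} (hc : 0 < c) (hc1 : c ≤ 1) (h0 : 0 ≤ a) (h1 : a ≤ 2 * r)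
    (hF : 0 ≤ B0 (r - c * a / 2) (c * a) + c ^ 2 * Aq (r - c * a / 2) (c * a)) :
    0 ≤ Gd r c a := by
  have hx0 : 0 ≤ c * a := by positivity
  have hx1 : c * a ≤ 2 * r := by
    calc c * a ≤ 1 * a := mul_le_mul_of_nonneg_right hc1 h0
      _ ≤ 2 * r := by linarith
  have hs1 : c ^ 2 ≤ 1 := by nlinarith
  have h3 : 0 ≤ c * (c * M1d r (c * a) + a * M1 r (c * a)) := by
    rw [key]
    set x := c * a with hx
    have hq : 0 ≤ r - x / 2 := by linarith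
    have hf : ee r x * P5 (r - x / 2) ≤ fL r x := by
      have h4 := P5_le hq
      have h5 : ee r x * P5 (r - x / 2) =
          Real.exp (-x ^ 2 / 4) * (P5 (r - x / 2) * Real.exp (-(r - x / 2) ^ 2)) := by
        unfold ee
        ring
      rw [h5]
      unfold fL
      exact mul_le_mul_of_nonneg_left h4 (Real.exp_pos _).le
    have hb : 0 ≤ x ^ 2 * (3 * c ^ 2 / 4 + x ^ 2 * (2 - c ^ 2) / 8) := by
      have : 0 ≤ x ^ 2 * (2 - c ^ 2) := mul_nonneg (sq_nonneg x) (by linarith)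
      positivity
    have h6 := mul_le_mul_of_nonneg_right hf hb
    have h7 : 0 ≤ ee r x * (x * (x * (3 * c ^ 2 / 4 + x ^ 2 * (2 - c ^ 2) / 8) *
        P5 (r - x / 2) + Bb r (c ^ 2) x)) := by
      rw [bracket r x (c ^ 2) _ rfl]
      exact mul_nonneg (ee_pos _ _).le (mul_nonneg hx0 hF)
    have e : ee r x * (x * (x * (3 * c ^ 2 / 4 + x ^ 2 * (2 - c ^ 2) / 8) *
        P5 (r - x / 2) + Bb r (c ^ 2) x)) =
        ee r x * P5 (r - x / 2) * (x ^ 2 * (3 * c ^ 2 / 4 + x ^ 2 * (2 - c ^ 2) / 8)) +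
        ee r x * (x * Bb r (c ^ 2) x) := by ring
    rw [e] at h7
    linarith
  exact div_nonneg (nonneg_of_mul_nonneg_right h3 hc) (W_pos a).le

theorem mono_of {r c l : ℝ}
    (h : ∀ a, l < a → a < 2 * r → 0 ≤ Gd r c a) :
    MonotoneOn (fun a => Mc r c a / W a) (Icc l (2 * r)) := by
  refine monotoneOn_of_deriv_nonneg (convex_Icc _ _) ?_ ?_ ?_
  · exact fun x _ => (G_deriv r c x).continuousAt.continuousWithinAt
  · exact fun x _ => (G_deriv r c x).differentiableAt.differentiableWithinAt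
  · intro a ha
    rw [interior_Icc] at ha
    rw [(G_deriv r c a).deriv]
    exact h a ha.1 ha.2

theorem main : S_TL2 := by
  intro r c hr hr3 hc hc1
  have hs1 : c ^ 2 ≤ 1 := by nlinarith
  constructor
  · refine mono_of fun a ha0 ha1 => ?_
    have ha : 0 ≤ a := by linarith
    have hx1 : c * a ≤ 2 * r := by
      calc c * a ≤ 1 * a := mul_le_mul_of_nonneg_right hc1 ha
        _ ≤ 2 * r := by linarith
    refine Gd_nonneg hc hc1 ha ha1.le (general (by linarith) (by positivity) (by positivity) hs1 ?_)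
    have h1 : (1 / 20) ^ 2 ≤ a ^ 2 := pow_le_pow_left₀ (by norm_num) ha0.le 2
    have h2 : c ^ 2 * (1 / 20) ^ 2 ≤ c ^ 2 * a ^ 2 := mul_le_mul_of_nonneg_left h1 (sq_nonneg c)
    have e : 400 * (c * a) ^ 2 = 400 * (c ^ 2 * a ^ 2) := by ring
    rw [e]
    linarith
  · intro hsp
    refine mono_of fun a ha0 ha1 => ?_
    have hx1 : c * a ≤ 2 * r := by
      calc c * a ≤ 1 * a := mul_le_mul_of_nonneg_right hc1 ha0.le
        _ ≤ 2 * r := by linarith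
    exact Gd_nonneg hc hc1 ha0.le ha1.le
      (special (by linarith) (by positivity) (by ring) hr3 (by positivity) hsp)

end Pool.Agent.H387.TL2
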